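import Pool.Agent.P.MP_3555ad_an.Final

set_option autoImplicit false

namespace Pool.Agent.Results.MP_3555ad_an.NoFatou

open Filter Topology Metric

/-- Twice the signed area of the triangle `a b c`. -/
def orient (a b c : ℂ) : ℝ := ((starRingEnd ℂ) (b - a) * (c - a)).im

/-- `K` is a locally finite triangulation of the open unit disc. -/
def IsOpenDisc (K : Geometry.SimplicialComplex ℝ ℂ) : Prop :=
  K.space = ball 0 1 ∧
    ∀ t < 1, {s ∈ K.faces | (convexHull ℝ (s : Set ℂ) ∩ closedBall 0 t).Nonempty}.Finite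

/-- The circles with centres `z v` and radii `r v` form a circle packing for `K`. -/
def IsPacking (K : Geometry.SimplicialComplex ℝ ℂ) (z : ℂ → ℂ) (r : ℂ → ℝ) : Prop :=
  (∀ v ∈ K.vertices, 0 < r v) ∧
    (∀ u v, u ≠ v → {u, v} ∈ K.faces → ‖z u - z v‖ = r u + r v) ∧
    ∀ u v w, {u, v, w} ∈ K.faces → 0 < orient u v w → 0 < orient (z u) (z v) (z w)

/-- The union of the closed discs and the triangular interstices. -/
def carrier (K : Geometry.SimplicialComplex ℝ ℂ) (z : ℂ → ℂ) (r : ℂ → ℝ) : Set ℂ :=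
  {p | ∃ v ∈ K.vertices, p ∈ closedBall (z v) (r v)} ∪
    {p | ∃ u v w, {u, v, w} ∈ K.faces ∧ 0 < orient u v w ∧
      p ∈ convexHull ℝ {z u, z v, z w} \ (ball (z u) (r u) ∪ ball (z v) (r v) ∪ ball (z w) (r w))}

/-- A univalent packing whose carrier is the unit disc. -/
def IsMaximal (K : Geometry.SimplicialComplex ℝ ℂ) (z : ℂ → ℂ) (r : ℂ → ℝ) : Prop :=
  IsPacking K z r ∧
    (∀ u ∈ K.vertices, ∀ v ∈ K.vertices, u ≠ v → Disjoint (ball (z u) (r u)) (ball (z v) (r v))) ∧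
    carrier K z r = ball 0 1

/-- `h` is the hyperbolic centre of the circle with Euclidean centre `c` and radius `r`. -/
def IsHypCentre (h c : ℂ) (r : ℝ) : Prop :=
  ‖h‖ < 1 ∧ ∃ q : ℝ, ∀ w, ‖w - c‖ = r → ‖w - h‖ = q * ‖1 - (starRingEnd ℂ) h * w‖

/-- Some sequence of centres `Z (v j)` tends nontangentially to `ζ` while `z (v j)` diverges. -/
def FailsAt (K : Geometry.SimplicialComplex ℝ ℂ) (Z z : ℂ → ℂ) (ζ : ℂ) : Prop :=
  ∃ v : ℕ → ℂ, (∀ j, v j ∈ K.vertices) ∧ Tendsto (fun j => Z (v j)) atTop (𝓝 ζ) ∧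
    (∃ M : ℝ, ∀ j, ‖ζ - Z (v j)‖ ≤ M * (1 - ‖Z (v j)‖)) ∧
    ¬∃ w, Tendsto (fun j => z (v j)) atTop (𝓝 w)

open Pool.Agent.P.MP_3555ad_an in
theorem result : ∃ (K : Geometry.SimplicialComplex ℝ ℂ) (Z H z : ℂ → ℂ) (R r : ℂ → ℝ),
    IsOpenDisc K ∧ IsMaximal K Z R ∧ (∀ v ∈ K.vertices, IsHypCentre (H v) (Z v) (R v)) ∧
    IsPacking K z r ∧ (∃ B : ℝ, ∀ v ∈ K.vertices, ‖z v‖ + r v ≤ B) ∧
    (∀ ζ : ℂ, ‖ζ‖ = 1 → FailsAt K Z z ζ) ∧
    ∀ᵐ t : ℝ, FailsAt K H z (Complex.exp (t * Complex.I)) := by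
  obtain ⟨c, H, z, R, r, m, h1, h2, h3, h4, h5, h6, h7, h8, h9⟩ := core
  have ho : ∀ a b d, orient a b d = ori a b d := fun a b d => by simp [orient, ori]; ring
  have : Nonempty V := ⟨mk 0 0⟩
  obtain ⟨g, hg⟩ : ∃ g : ℂ → V, ∀ v, g (c v) = v :=
    ⟨Function.invFun c, Function.leftInverse_invFun m.inj⟩
  have pk : ∀ (y : V → ℂ) (s : V → ℝ), (∀ v, 0 < s v) →
      (∀ a b d, FF a b d → EFace (y a, s a) (y b, s b) (y d, s d)) →
      IsPacking m.complex (y ∘ g) (s ∘ g) := by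
    intro y s s0 hF
    refine ⟨fun v _ => s0 _, fun u v hne hs => ?_, fun u v w hs hp => ?_⟩
    · obtain ⟨a, b, d, hf, rfl, rfl⟩ := m.pair_face hne hs
      simpa [hg] using (hF _ _ _ hf).t1
    · rw [ho] at hp ⊢
      obtain ⟨a, b, d, hf, rfl, rfl, rfl⟩ := m.triple_face hp hs
      simpa [hg] using (hF _ _ _ hf).pos
  have bad : ∀ (Y : V → ℂ) (ζ : ℂ), BadV Y z ζ → FailsAt m.complex (Y ∘ g) (z ∘ g) ζ := by
    rintro Y ζ ⟨v, a1, a2, a3⟩
    exact ⟨fun j => c (v j), fun j => by rw [m.vertices]; exact ⟨_, rfl⟩,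
      by simpa [hg] using a1, by simpa [hg] using a2, by simpa [hg] using a3⟩
  refine ⟨m.complex, c ∘ g, H ∘ g, z ∘ g, R ∘ g, r ∘ g, ⟨h1, h2⟩,
    ⟨pk c R (fun v => (h3 v).1) h4, ?_, ?_⟩, fun v _ => h7 _, pk z r (fun v => (h5 v).1) h6,
    ⟨20, fun v _ => (h5 _).2⟩, fun ζ hζ => bad c ζ (h8 ζ hζ), ?_⟩
  · rw [m.vertices]
    rintro _ ⟨u, rfl⟩ _ ⟨v, rfl⟩ hne
    simp only [Function.comp, hg]
    exact m.disjoint_balls (fun hf => (h4 _ _ _ hf).t1) fun e => hne (by rw [e])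
  · ext p
    constructor
    · rintro (⟨v, -, hp⟩ | ⟨u, v, w, hs, hp, hq, -⟩)
      · rw [mem_closedBall, dist_eq_norm] at hp
        rw [mem_ball_zero_iff]
        simp only [Function.comp] at hp
        linarith [norm_sub_norm_le p (c (g v)), (h3 (g v)).2]
      · have hb : ∀ v, c v ∈ ball (0 : ℂ) 1 := fun v => by
          rw [mem_ball_zero_iff]; linarith [(h3 v).1, (h3 v).2]
        refine convexHull_min ?_ (convex_ball 0 1) hq
        rintro _ (rfl | rfl | rfl) <;> exact hb _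
    · intro hp
      rw [← h1, m.mem_space] at hp
      obtain ⟨a, b, d, hf, hp⟩ := hp
      have hv : ∀ v, p ∈ ball (c v) (R v) → p ∈ carrier m.complex (c ∘ g) (R ∘ g) := fun v hv =>
        Or.inl ⟨c v, by rw [m.vertices]; exact ⟨_, rfl⟩, by
          simpa [hg] using ball_subset_closedBall hv⟩
      by_cases hb : p ∈ ball (c a) (R a) ∪ ball (c b) (R b) ∪ ball (c d) (R d)
      · rcases hb with (hb | hb) | hb <;> exact hv _ hb
      · refine Or.inr ⟨c a, c b, c d, m.face_mem hf, by rw [ho]; exact m.pos hf, ?_⟩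
        simp only [Function.comp, hg]
        exact ⟨by rw [convexHull_eq_Tri (m.pos hf)]; exact hp, hb⟩
  · filter_upwards [h9] with t ht using bad H _ ht

end Pool.Agent.Results.MP_3555ad_an.NoFatou
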